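import Pool.Agent.TH993.SP.Defs

/-!
# Continuity of the sprawl on the segment between two norms
-/

set_option autoImplicit false

open MeasureTheory Set Real Pool.Agent.TH993.SP

namespace Pool.Agent.TH509.SPPath

noncomputable section

/-- the projection to the unit interval -/
def cl (s : ℝ) : ℝ := max 0 (min s 1)

lemma cl_cont : Continuous cl := by unfold cl; fun_prop

lemma cl_nonneg (s : ℝ) : 0 ≤ cl s := le_max_left _ _

lemma cl_le (s : ℝ) : cl s ≤ 1 := max_le zero_le_one (min_le_right _ _)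

lemma cl_eq {s : ℝ} (hs : s ∈ Icc (0 : ℝ) 1) : cl s = s := by
  unfold cl
  rw [min_eq_left hs.2, max_eq_right hs.1]

lemma isN_comb {N0 N1 : ℝ × ℝ → ℝ} (h0 : IsN N0) (h1 : IsN N1) {t : ℝ} (ht0 : 0 ≤ t)
    (ht1 : t ≤ 1) : IsN (fun p => (1 - t) * N0 p + t * N1 p) := by
  refine ⟨fun u v => ?_, fun r u => ?_, fun u hu => ?_, ?_⟩
  · have a := mul_le_mul_of_nonneg_left (h0.add u v) (sub_nonneg.2 ht1)
    have b := mul_le_mul_of_nonneg_left (h1.add u v) ht0
    nlinarith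
  · simp only [h0.smul, h1.smul]
    ring
  · have a := h0.pos u hu
    have b := h1.pos u hu
    rcases ht0.eq_or_lt with h | h
    · rw [← h]; simpa using a
    · have := mul_pos h b
      have := mul_nonneg (sub_nonneg.2 ht1) a.le
      linarith
  · exact (continuous_const.mul h0.cont).add (continuous_const.mul h1.cont)

lemma uv_ne (θ : ℝ) : uv θ ≠ 0 := by
  intro h
  have h1 : Real.cos θ = 0 := congrArg Prod.fst h
  have h2 : Real.sin θ = 0 := congrArg Prod.snd h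
  have := Real.sin_sq_add_cos_sq θ
  rw [h1, h2] at this
  norm_num at this

lemma uv_cont : Continuous uv := by
  unfold uv
  exact Real.continuous_cos.prodMk Real.continuous_sin

/-- the norms of the segment, extended -/
def Mc (N0 N1 : ℝ × ℝ → ℝ) (s : ℝ) (p : ℝ × ℝ) : ℝ := (1 - cl s) * N0 p + cl s * N1 p

variable {N0 N1 : ℝ × ℝ → ℝ}

lemma Mc_isN (h0 : IsN N0) (h1 : IsN N1) (s : ℝ) : IsN (Mc N0 N1 s) :=
  isN_comb h0 h1 (cl_nonneg s) (cl_le s)

lemma Mc_cont (h0 : IsN N0) (h1 : IsN N1) : Continuous fun q : ℝ × (ℝ × ℝ) => Mc N0 N1 q.1 q.2 := by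
  unfold Mc
  have a := h0.cont.comp (continuous_snd (X := ℝ) (Y := ℝ × ℝ))
  have b := h1.cont.comp (continuous_snd (X := ℝ) (Y := ℝ × ℝ))
  have c := cl_cont.comp (continuous_fst (X := ℝ) (Y := ℝ × ℝ))
  exact ((continuous_const.sub c).mul a).add (c.mul b)

lemma Mc_uv_cont (h0 : IsN N0) (h1 : IsN N1) : Continuous fun q : ℝ × ℝ => Mc N0 N1 q.1 (uv q.2) :=
  (Mc_cont h0 h1).comp (continuous_fst.prodMk (uv_cont.comp continuous_snd))

lemma Mc_uv_ne (h0 : IsN N0) (h1 : IsN N1) (s θ : ℝ) : Mc N0 N1 s (uv θ) ≠ 0 :=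
  ((Mc_isN h0 h1 s).pos _ (uv_ne θ)).ne'

lemma rd_cont (h0 : IsN N0) (h1 : IsN N1) : Continuous fun q : ℝ × ℝ => rd (Mc N0 N1 q.1) q.2 := by
  unfold rd
  exact ((Mc_uv_cont h0 h1).pow 2).inv₀ fun q => pow_ne_zero _ (Mc_uv_ne h0 h1 _ _)

lemma pt_cont (h0 : IsN N0) (h1 : IsN N1) : Continuous fun q : ℝ × ℝ => pt (Mc N0 N1 q.1) q.2 := by
  unfold pt
  exact ((Mc_uv_cont h0 h1).inv₀ fun q => Mc_uv_ne h0 h1 _ _).smul (uv_cont.comp continuous_snd)

lemma inner_cont (h0 : IsN N0) (h1 : IsN N1) : Continuous fun q : ℝ × ℝ =>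
    ∫ φ in (-π)..π, Mc N0 N1 q.1 (pt (Mc N0 N1 q.1) q.2 - pt (Mc N0 N1 q.1) φ) *
      rd (Mc N0 N1 q.1) φ := by
  apply intervalIntegral.continuous_parametric_intervalIntegral_of_continuous'
  have a : Continuous fun r : (ℝ × ℝ) × ℝ => (r.1.1, r.1.2) :=
    continuous_fst
  have b : Continuous fun r : (ℝ × ℝ) × ℝ => (r.1.1, r.2) :=
    (continuous_fst.comp continuous_fst).prodMk continuous_snd
  have c := ((pt_cont h0 h1).comp a).sub ((pt_cont h0 h1).comp b)
  exact ((Mc_cont h0 h1).comp ((continuous_fst.comp continuous_fst).prodMk c)).mul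
    ((rd_cont h0 h1).comp b)

lemma num_cont (h0 : IsN N0) (h1 : IsN N1) : Continuous fun s : ℝ =>
    ∫ θ in (-π)..π, (∫ φ in (-π)..π, Mc N0 N1 s (pt (Mc N0 N1 s) θ - pt (Mc N0 N1 s) φ) *
      rd (Mc N0 N1 s) φ) * rd (Mc N0 N1 s) θ := by
  apply intervalIntegral.continuous_parametric_intervalIntegral_of_continuous'
  exact (inner_cont h0 h1).mul (rd_cont h0 h1)

lemma den_cont (h0 : IsN N0) (h1 : IsN N1) : Continuous fun s : ℝ =>
    ∫ θ in (-π)..π, rd (Mc N0 N1 s) θ := by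
  apply intervalIntegral.continuous_parametric_intervalIntegral_of_continuous'
  exact rd_cont h0 h1

lemma den_pos (h0 : IsN N0) (h1 : IsN N1) (s : ℝ) : 0 < ∫ θ in (-π)..π, rd (Mc N0 N1 s) θ := by
  apply intervalIntegral.intervalIntegral_pos_of_pos_on
  · apply Continuous.intervalIntegrable
    exact (rd_cont h0 h1).comp (continuous_const.prodMk continuous_id)
  · intro θ _
    unfold rd
    have := Mc_uv_ne h0 h1 s θ
    positivity
  · linarith [Real.pi_pos]

theorem PATH : S_PATH := by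
  intro N0 N1 h0 h1
  refine ⟨?_, fun t ht => isN_comb h0 h1 ht.1 ht.2⟩
  have hc : Continuous fun s : ℝ => EN (Mc N0 N1 s) := by
    unfold EN
    exact (num_cont h0 h1).div ((den_cont h0 h1).pow 2) fun s =>
      pow_ne_zero _ (den_pos h0 h1 s).ne'
  refine hc.continuousOn.congr fun t ht => ?_
  unfold Mc
  simp only [cl_eq ht]

end

end Pool.Agent.TH509.SPPath
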