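import Mathlib

/-! Every finite connected graph has a closed walk using each dart exactly once. -/

set_option autoImplicit false

namespace Pool.Agent.TH509

open SimpleGraph

variable {V : Type*} {G : SimpleGraph V}

/-- a closed walk whose dart list has no duplicates and is closed under reversal -/
structure SymTour (x0 : V) where
  w : G.Walk x0 x0
  nodup : w.darts.Nodup
  symm : ∀ d : G.Dart, d ∈ w.darts → d.symm ∈ w.darts

theorem exists_insert [DecidableEq V] {x0 : V} (T : SymTour (G := G) x0) {x y : V} (hxy : G.Adj x y)
    (hx : x ∈ T.w.support) (hn : (⟨(x, y), hxy⟩ : G.Dart) ∉ T.w.darts) :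
    ∃ T' : SymTour (G := G) x0, T'.w.length = T.w.length + 2 := by
  classical
  set w := T.w with hw
  set d : G.Dart := ⟨(x, y), hxy⟩ with hd
  have hds : d.symm = ⟨(y, x), hxy.symm⟩ := rfl
  let w' : G.Walk x0 x0 :=
    (w.takeUntil x hx).append (Walk.cons hxy (Walk.cons hxy.symm (w.dropUntil x hx)))
  have hdarts : w'.darts = (w.takeUntil x hx).darts ++ d :: d.symm :: (w.dropUntil x hx).darts := by
    simp [w', Walk.darts_append, hd]
  have hwd : w.darts = (w.takeUntil x hx).darts ++ (w.dropUntil x hx).darts := by
    conv_lhs => rw [← w.take_spec hx]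
    rw [Walk.darts_append]
  have hperm : w'.darts.Perm (d :: d.symm :: w.darts) := by
    rw [hdarts, hwd]
    refine (List.perm_middle).trans ?_
    refine List.Perm.cons _ ?_
    exact List.perm_middle
  have hns : d.symm ∉ w.darts := by
    intro h
    have := T.symm _ h
    rw [Dart.symm_symm] at this
    exact hn this
  have hne : d ≠ d.symm := by
    intro h
    exact (Dart.symm_ne d) h.symm
  refine ⟨⟨w', ?_, ?_⟩, ?_⟩
  · rw [hperm.nodup_iff]
    simp only [List.nodup_cons, List.mem_cons, not_or]
    exact ⟨⟨hne, hn⟩, hns, T.nodup⟩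
  · intro e he
    rw [hperm.mem_iff] at he ⊢
    simp only [List.mem_cons] at he ⊢
    rcases he with rfl | rfl | he
    · right; left; rfl
    · left; exact Dart.symm_symm _
    · right; right; exact T.symm _ he
  · have h1 := hperm.length_eq
    simp only [Walk.length_darts, List.length_cons] at h1
    show w'.length = w.length + 2
    omega

theorem exists_tour [Fintype V] [DecidableEq V] (hG : G.Connected) (x0 : V) :
    ∃ w : G.Walk x0 x0, w.darts.Nodup ∧ ∀ d : G.Dart, d ∈ w.darts := by
  classical
  have hfin : Finite G.Dart := inferInstance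
  have : Fintype G.Dart := Fintype.ofFinite _
  -- choose a tour of maximal length
  have hbound : ∀ T : SymTour (G := G) x0, T.w.length ≤ Fintype.card G.Dart := by
    intro T
    have := T.nodup.length_le_card
    simpa using this
  have hex : ∃ T : SymTour (G := G) x0, ∀ T' : SymTour (G := G) x0, T'.w.length ≤ T.w.length := by
    by_contra hcon
    push Not at hcon
    have hk : ∀ k : ℕ, ∃ T : SymTour (G := G) x0, k ≤ T.w.length := by
      intro k
      induction k with
      | zero => exact ⟨⟨Walk.nil, by simp, by simp⟩, Nat.zero_le _⟩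
      | succ k ih =>
        obtain ⟨T, hT⟩ := ih
        obtain ⟨T', hT'⟩ := hcon T
        exact ⟨T', by omega⟩
    obtain ⟨T, hT⟩ := hk (Fintype.card G.Dart + 1)
    have := hbound T
    omega
  obtain ⟨T, hT⟩ := hex
  refine ⟨T.w, T.nodup, ?_⟩
  -- every neighbour of a support vertex is reached
  have key : ∀ x y : V, ∀ h : G.Adj x y, x ∈ T.w.support → (⟨(x, y), h⟩ : G.Dart) ∈ T.w.darts := by
    intro x y h hx
    by_contra hn
    obtain ⟨T', hT'⟩ := exists_insert T h hx hn
    have := hT T'
    omega
  have hwalk : ∀ a b : V, ∀ _ : G.Walk a b, a ∈ T.w.support → b ∈ T.w.support := by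
    intro a b p
    induction p with
    | nil => exact fun h => h
    | @cons a b c hab q ih =>
      intro ha
      exact ih (Walk.dart_snd_mem_support_of_mem_darts _ (key a b hab ha))
  have hsupp : ∀ v : V, v ∈ T.w.support := by
    intro v
    obtain ⟨p⟩ := hG.preconnected x0 v
    exact hwalk x0 v p (Walk.start_mem_support _)
  intro d
  have := key d.fst d.snd d.adj (hsupp _)
  exact this

end Pool.Agent.TH509
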