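import Mathlib

set_option autoImplicit false

namespace Pool.Agent.TH509

open ZMod Complex
open scoped ComplexConjugate

theorem parseval (N : ℕ) [NeZero N] (Φ : ZMod N → ℂ) :
    ∑ k, ‖ZMod.dft Φ k‖ ^ 2 = (N : ℝ) * ∑ j, ‖Φ j‖ ^ 2 := by
  have h : ((∑ k, ‖ZMod.dft Φ k‖ ^ 2 : ℝ) : ℂ) = (((N : ℝ) * ∑ j, ‖Φ j‖ ^ 2 : ℝ) : ℂ) := by
    push_cast
    have e1 : ∀ k, ((‖ZMod.dft Φ k‖ : ℂ)) ^ 2 = conj (ZMod.dft Φ k) * ZMod.dft Φ k := by
      intro k
      rw [mul_comm, Complex.mul_conj, Complex.normSq_eq_norm_sq]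
      push_cast; rfl
    have e2 : ∀ j, ((‖Φ j‖ : ℂ)) ^ 2 = conj (Φ j) * Φ j := by
      intro k
      rw [mul_comm, Complex.mul_conj, Complex.normSq_eq_norm_sq]
      push_cast; rfl
    simp_rw [e1, e2]
    calc ∑ k, conj (ZMod.dft Φ k) * ZMod.dft Φ k
        = ∑ k, ∑ j, conj (Φ j) * (stdAddChar (-(k * (-j))) • ZMod.dft Φ k) := by
          refine Finset.sum_congr rfl fun k _ => ?_
          rw [dft_apply Φ k, map_sum, Finset.sum_mul]
          refine Finset.sum_congr rfl fun j _ => ?_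
          rw [← dft_apply Φ k]
          simp only [smul_eq_mul, map_mul]
          have : conj (stdAddChar (-(j * k)) : ℂ) = stdAddChar (-(k * (-j))) := by
            rw [← AddChar.map_neg_eq_conj]
            congr 1
            ring
          rw [this]
          ring
      _ = ∑ j, conj (Φ j) * (ZMod.dft (ZMod.dft Φ) (-j)) := by
          rw [Finset.sum_comm]
          refine Finset.sum_congr rfl fun j _ => ?_
          rw [dft_apply (ZMod.dft Φ), Finset.mul_sum]
      _ = (N : ℂ) * ∑ j, conj (Φ j) * Φ j := by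
          rw [Finset.mul_sum]
          refine Finset.sum_congr rfl fun j _ => ?_
          rw [dft_dft]
          simp only [neg_neg, smul_eq_mul]
          ring
  exact_mod_cast h

theorem cos_le_aux (N v : ℕ) (h1 : 1 ≤ v) (h2 : v < N) :
    Real.cos (2 * Real.pi * v / N) ≤ Real.cos (2 * Real.pi / N) := by
  have hN : (0 : ℝ) < N := by exact_mod_cast (by omega : 0 < N)
  have hpi := Real.pi_pos
  have hv1 : (1 : ℝ) ≤ v := by exact_mod_cast h1
  have hv2 : (v : ℝ) + 1 ≤ N := by exact_mod_cast h2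
  rcases le_total (2 * (v : ℝ)) N with h | h
  · apply Real.cos_le_cos_of_nonneg_of_le_pi
    · positivity
    · rw [div_le_iff₀ hN]; nlinarith
    · rw [div_le_div_iff_of_pos_right hN]; nlinarith
  · have e : Real.cos (2 * Real.pi * v / N) = Real.cos (2 * Real.pi * (N - v) / N) := by
      have : 2 * Real.pi * ((N : ℝ) - v) / N = 2 * Real.pi - 2 * Real.pi * v / N := by
        field_simp
      rw [this, Real.cos_two_pi_sub]
    rw [e]
    apply Real.cos_le_cos_of_nonneg_of_le_pi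
    · positivity
    · rw [div_le_iff₀ hN]; nlinarith
    · rw [div_le_div_iff_of_pos_right hN]; nlinarith

theorem norm_char_sub_one (N : ℕ) [NeZero N] (k : ZMod N) (hk : k ≠ 0) :
    2 - 2 * Real.cos (2 * Real.pi / N) ≤ ‖(stdAddChar k : ℂ) - 1‖ ^ 2 := by
  have hk' : ((k.val : ℤ) : ZMod N) = k := by simp
  have hN : (N : ℝ) ≠ 0 := by exact_mod_cast NeZero.ne N
  have e : (stdAddChar k : ℂ) = Complex.exp (((2 * Real.pi * k.val / N : ℝ) : ℂ) * Complex.I) := by
    conv_lhs => rw [← hk']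
    rw [stdAddChar_coe]
    congr 1
    push_cast
    ring
  have hv1 : 1 ≤ k.val := by
    rcases Nat.eq_zero_or_pos k.val with h | h
    · exact absurd ((ZMod.val_eq_zero k).1 h) hk
    · exact h
  have hv2 : k.val < N := ZMod.val_lt k
  have hc := cos_le_aux N k.val hv1 hv2
  set θ : ℝ := 2 * Real.pi * k.val / N with hθ
  have h2 : ‖(stdAddChar k : ℂ) - 1‖ ^ 2 = 2 - 2 * Real.cos θ := by
    rw [e, ← Complex.normSq_eq_norm_sq, Complex.normSq_apply]
    simp only [Complex.sub_re, Complex.sub_im, Complex.exp_ofReal_mul_I_re,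
      Complex.exp_ofReal_mul_I_im, Complex.one_re, Complex.one_im, sub_zero]
    nlinarith [Real.sin_sq_add_cos_sq θ]
  rw [h2]
  linarith

theorem wirtinger (N : ℕ) [NeZero N] (a : ZMod N → ℝ) (h0 : ∑ i, a i = 0) :
    (2 - 2 * Real.cos (2 * Real.pi / N)) * ∑ i, a i ^ 2 ≤ ∑ i, (a (i + 1) - a i) ^ 2 := by
  set Φ : ZMod N → ℂ := fun i => (a i : ℂ) with hΦ
  set Ψ : ZMod N → ℂ := fun i => Φ (i + 1) - Φ i with hΨ
  have hN : (0 : ℝ) < N := by exact_mod_cast Nat.pos_of_ne_zero (NeZero.ne N)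
  have p1 := parseval N Φ
  have p2 := parseval N Ψ
  have hΨd : ∀ k, ZMod.dft Ψ k = (stdAddChar k - 1) * ZMod.dft Φ k := by
    intro k
    have e1 : ZMod.dft Ψ k = (∑ j, stdAddChar (-(j * k)) • Φ (j + 1)) - ZMod.dft Φ k := by
      rw [dft_apply, dft_apply, ← Finset.sum_sub_distrib]
      refine Finset.sum_congr rfl fun j _ => ?_
      simp only [hΨ, smul_eq_mul]; ring
    have e2 : (∑ j, stdAddChar (-(j * k)) • Φ (j + 1)) = stdAddChar k * ZMod.dft Φ k := by
      rw [dft_apply, Finset.mul_sum]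
      rw [← Equiv.sum_comp (Equiv.addRight (1 : ZMod N))
        (fun j => (stdAddChar k : ℂ) * (stdAddChar (-(j * k)) • Φ j))]
      refine Finset.sum_congr rfl fun j _ => ?_
      simp only [Equiv.coe_addRight, smul_eq_mul]
      rw [← mul_assoc, ← AddChar.map_add_eq_mul]
      congr 2
      ring
    rw [e1, e2]; ring
  have h00 : ZMod.dft Φ 0 = 0 := by
    rw [dft_apply_zero]
    have : ((∑ i, a i : ℝ) : ℂ) = 0 := by rw [h0]; simp
    simpa [hΦ] using this
  have hmain : (2 - 2 * Real.cos (2 * Real.pi / N)) * ∑ k, ‖ZMod.dft Φ k‖ ^ 2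
      ≤ ∑ k, ‖ZMod.dft Ψ k‖ ^ 2 := by
    rw [Finset.mul_sum]
    refine Finset.sum_le_sum fun k _ => ?_
    rw [hΨd k, norm_mul, mul_pow]
    by_cases hk : k = 0
    · subst hk
      rw [h00]; simp
    · exact mul_le_mul_of_nonneg_right (norm_char_sub_one N k hk) (by positivity)
  rw [p1, p2] at hmain
  have q1 : ∑ j, ‖Φ j‖ ^ 2 = ∑ i, a i ^ 2 := by
    refine Finset.sum_congr rfl fun j _ => ?_
    simp [hΦ]
  have q2 : ∑ j, ‖Ψ j‖ ^ 2 = ∑ i, (a (i + 1) - a i) ^ 2 := by
    refine Finset.sum_congr rfl fun j _ => ?_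
    have : Ψ j = ((a (j + 1) - a j : ℝ) : ℂ) := by simp [hΨ, hΦ]
    rw [this, Complex.norm_real, Real.norm_eq_abs, sq_abs]
  rw [q1, q2] at hmain
  nlinarith

end Pool.Agent.TH509
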