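import Mathlib
import Pool.Agent.TH509.Tour
import Pool.Agent.TH509.Wirt

set_option autoImplicit false

namespace Pool.Agent.TH509

open SimpleGraph

theorem sum_zmod_val (N : ℕ) [NeZero N] (F : ℕ → ℝ) :
    ∑ i : ZMod N, F i.val = ∑ i ∈ Finset.range N, F i := by
  obtain ⟨k, rfl⟩ : ∃ k, N = k + 1 := ⟨N - 1, by have := NeZero.ne N; omega⟩
  rw [Finset.sum_range]
  rfl

theorem val_succ (N : ℕ) [NeZero N] (i : ZMod N) :
    (i.val + 1 < N ∧ (i + 1).val = i.val + 1) ∨ (i.val + 1 = N ∧ (i + 1).val = 0) := by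
  have h := ZMod.val_lt i
  rcases Nat.lt_or_ge (i.val + 1) N with h1 | h1
  · left
    refine ⟨h1, ?_⟩
    have e : i + 1 = ((i.val + 1 : ℕ) : ZMod N) := by push_cast; simp
    rw [e, ZMod.val_natCast, Nat.mod_eq_of_lt h1]
  · right
    have h2 : i.val + 1 = N := by omega
    refine ⟨h2, ?_⟩
    have e : i + 1 = ((i.val + 1 : ℕ) : ZMod N) := by push_cast; simp
    rw [e, h2, ZMod.val_natCast, Nat.mod_self]

variable {V : Type*} [Fintype V] (G : SimpleGraph V) [DecidableRel G.Adj]

theorem sum_darts (g : V → V → ℝ) :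
    ∑ d : G.Dart, g d.fst d.snd = ∑ u, ∑ v, (if G.Adj u v then g u v else 0) := by
  rw [← Fintype.sum_prod_type']
  refine Fintype.sum_of_injective (fun d : G.Dart => d.toProd) ?_ _ _ ?_ ?_
  · intro a b h
    exact Dart.ext _ _ h
  · rintro ⟨u, v⟩ h
    rw [if_neg]
    intro hadj
    exact h ⟨⟨(u, v), hadj⟩, rfl⟩
  · intro d
    show g d.fst d.snd = if G.Adj d.fst d.snd then _ else _
    rw [if_pos d.adj]
    
theorem sum_darts_fst (g : V → ℝ) :
    ∑ d : G.Dart, g d.fst = ∑ v, (G.degree v : ℝ) * g v := by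
  rw [sum_darts G (fun u _ => g u)]
  refine Finset.sum_congr rfl fun u _ => ?_
  rw [← Finset.sum_filter, Finset.sum_const, nsmul_eq_mul]
  congr 2
  rw [← card_neighborFinset_eq_degree]
  congr 1
  ext v
  simp

theorem gap [DecidableEq V] (hG : G.Connected) (hm : 1 ≤ G.edgeFinset.card) (f : V → ℝ)
    (h0 : ∑ v, (G.degree v : ℝ) * f v = 0) :
    (1 - Real.cos (Real.pi / G.edgeFinset.card)) * ∑ v, (G.degree v : ℝ) * f v ^ 2 ≤
      (1 / 2 : ℝ) * ∑ u, ∑ v, (if G.Adj u v then (f u - f v) ^ 2 else 0) := by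
  obtain ⟨x0⟩ := hG.nonempty
  obtain ⟨w, hnd, hall⟩ := exists_tour hG x0
  set N := Fintype.card G.Dart with hN
  have hN2 : N = 2 * G.edgeFinset.card := G.dart_card_eq_twice_card_edges
  have : NeZero N := ⟨by omega⟩
  have hlen : w.darts.length = N := by
    rw [hN, ← List.toFinset_card_of_nodup hnd]
    rw [← Finset.card_univ]
    congr 1
    ext d
    simp [hall d]
  have hsum : ∀ g : V → V → ℝ, ∑ d : G.Dart, g d.fst d.snd
      = ∑ i ∈ Finset.range N, g (w.getVert i) (w.getVert (i + 1)) := by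
    intro g
    have e1 : ∑ d : G.Dart, g d.fst d.snd = (w.darts.map (fun d => g d.fst d.snd)).sum := by
      rw [← List.sum_toFinset _ hnd]
      refine Finset.sum_congr ?_ fun _ _ => rfl
      ext d
      simp [hall d]
    rw [e1, ← Fin.sum_univ_fun_getElem, ← hlen, Finset.sum_range]
    refine Finset.sum_congr rfl fun i _ => ?_
    have := Walk.darts_getElem_eq_getVert (p := w) i.val i.isLt
    show g w.darts[i.val].fst w.darts[i.val].snd = _
    rw [this]
  set a : ZMod N → ℝ := fun i => f (w.getVert i.val) with ha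
  have hsucc : ∀ i : ZMod N, a (i + 1) = f (w.getVert (i.val + 1)) := by
    intro i
    rcases val_succ N i with ⟨_, h⟩ | ⟨h1, h⟩
    · simp only [ha, h]
    · simp only [ha, h, h1]
      have : w.getVert N = x0 := by
        have := w.getVert_length
        rw [← Walk.length_darts, hlen] at this
        exact this
      rw [this, Walk.getVert_zero]
  have s0 : ∑ i, a i = 0 := by
    have e := sum_zmod_val N (fun j => f (w.getVert j))
    have e2 := hsum (fun u _ => f u)
    rw [sum_darts_fst G f, h0] at e2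
    exact e.trans e2.symm
  have s1 : ∑ i, a i ^ 2 = ∑ v, (G.degree v : ℝ) * f v ^ 2 := by
    have e := sum_zmod_val N (fun j => f (w.getVert j) ^ 2)
    have e2 := hsum (fun u _ => f u ^ 2)
    rw [sum_darts_fst G (fun v => f v ^ 2)] at e2
    exact e.trans e2.symm
  have s2 : ∑ i, (a (i + 1) - a i) ^ 2 = ∑ u, ∑ v, (if G.Adj u v then (f u - f v) ^ 2 else 0) := by
    have : ∑ i, (a (i + 1) - a i) ^ 2
        = ∑ i : ZMod N, (fun j => (f (w.getVert j) - f (w.getVert (j + 1))) ^ 2) i.val := by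
      refine Finset.sum_congr rfl fun i _ => ?_
      rw [hsucc i]
      simp only [ha]
      ring
    have e := sum_zmod_val N (fun j => (f (w.getVert j) - f (w.getVert (j + 1))) ^ 2)
    have e2 := hsum (fun u v => (f u - f v) ^ 2)
    rw [sum_darts G (fun u v => (f u - f v) ^ 2)] at e2
    exact this.trans (e.trans e2.symm)
  have hw := wirtinger N a s0
  rw [s1, s2] at hw
  have hc : 2 * Real.pi / (N : ℝ) = Real.pi / (G.edgeFinset.card : ℝ) := by
    rw [hN2]; push_cast
    rw [mul_div_mul_left _ _ (by norm_num : (2 : ℝ) ≠ 0)]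
  rw [hc] at hw
  linarith

end Pool.Agent.TH509
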