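import Pool.Agent.TH614.HS.Defs2

/-!
# Frobenius data over the algebraic closure (project HS)
-/

set_option autoImplicit false

open Pool.Agent.TH614.HS

namespace Pool.Agent.TH509.J3619

theorem HDEX : S_HDEX := by
  intro F _ _ q hcard h4 h3
  obtain ⟨p, hp⟩ := CharP.exists F
  have hpp : p.Prime := CharP.char_is_prime F p
  have : Fact p.Prime := ⟨hpp⟩
  have : CharP (AlgebraicClosure F) p := charP_of_injective_algebraMap
    (algebraMap F (AlgebraicClosure F)).injective p
  have : ExpChar (AlgebraicClosure F) p := ExpChar.prime hpp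
  obtain ⟨n, -, hn⟩ := FiniteField.card F p
  have hdvd : q ∣ p ^ (n : ℕ) := by
    rw [← hn, hcard]
    exact dvd_pow_self q two_ne_zero
  obtain ⟨m, -, hm⟩ := (Nat.dvd_prime_pow hpp).1 hdvd
  have hq1 : q ≠ 1 := by
    intro h
    have h1 := Fintype.one_lt_card (α := F)
    rw [hcard, h] at h1
    omega
  have hm0 : m ≠ 0 := by
    rintro rfl
    exact hq1 (by rw [hm, pow_zero])
  have h5 : 5 ≤ q := by omega
  have hqz : (q : AlgebraicClosure F) = 0 := by
    rw [hm, Nat.cast_pow, CharP.cast_eq_zero, zero_pow hm0]
  have hadd : ∀ x y : AlgebraicClosure F, (x + y) ^ q = x ^ q + y ^ q := by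
    intro x y
    rw [hm]
    exact add_pow_char_pow x y p m
  have hnat : ∀ a : ℕ, (a : AlgebraicClosure F) ^ q = a := by
    intro a
    rw [hm, ← iterateFrobenius_def]
    exact map_natCast _ a
  have hpq : ∀ r : ℕ, r.Prime → (r : AlgebraicClosure F) = 0 → r ∣ q := by
    intro r hr h
    rw [CharP.cast_eq_zero_iff (AlgebraicClosure F) p] at h
    rw [← (Nat.prime_dvd_prime_iff_eq hpp hr).1 h, hm]
    exact dvd_pow_self p hm0
  have h2 : (2 : AlgebraicClosure F) ≠ 0 := by
    intro h
    have := hpq 2 Nat.prime_two (by exact_mod_cast h)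
    omega
  obtain ⟨th, hth⟩ := IsAlgClosed.exists_pow_nat_eq (3 : AlgebraicClosure F) two_pos
  obtain ⟨ii, hii⟩ := IsAlgClosed.exists_pow_nat_eq (-1 : AlgebraicClosure F) two_pos
  have hiiq : ii ^ q = ii := by
    obtain ⟨k, hk⟩ : ∃ k, q = 4 * k + 1 := ⟨q / 4, by omega⟩
    rw [hk, pow_succ, pow_mul, show ii ^ 4 = (ii ^ 2) ^ 2 by ring, hii]
    norm_num
  have hthq : th ^ q = -th := by
    have e3 : ((3 : ℕ) : AlgebraicClosure F) ^ q = (3 : ℕ) := hnat 3
    have e1 : (th ^ q) ^ 2 = th ^ 2 := by
      rw [← pow_mul, mul_comm, pow_mul, hth]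
      exact_mod_cast e3
    rcases sq_eq_sq_iff_eq_or_eq_neg.1 e1 with h | h
    · rcases h3 with h3 | h3
      · -- 3 divides q
        have hp3 : p = 3 := by
          have : 3 ∣ p ^ m := by rw [← hm]; omega
          exact ((Nat.prime_dvd_prime_iff_eq Nat.prime_three hpp).1
            (Nat.prime_three.dvd_of_dvd_pow this)).symm
        have h30 : (3 : AlgebraicClosure F) = 0 := by
          have := CharP.cast_eq_zero (AlgebraicClosure F) p
          rw [hp3] at this
          exact_mod_cast this
        have hth0 : th = 0 := by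
          rw [h30] at hth
          exact pow_eq_zero_iff two_ne_zero |>.1 hth
        rw [hth0, zero_pow (by omega), neg_zero]
      · exfalso
        obtain ⟨k, hk⟩ : ∃ k, q = 3 * k + 2 := ⟨q / 3, by omega⟩
        set v : AlgebraicClosure F := -1 + ii * th with hv
        have hm1 : (-1 : AlgebraicClosure F) ^ q = -1 := by
          apply Odd.neg_one_pow
          rw [Nat.odd_iff]
          omega
        have hvq : v ^ q = v := by
          rw [hv, hadd, mul_pow, hiiq, h, hm1]
        have hv2 : v ^ 2 + 2 * v + 4 = 0 := by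
          have : v ^ 2 + 2 * v + 4 = ii ^ 2 * th ^ 2 + 3 := by rw [hv]; ring
          rw [this, hii, hth]
          ring
        have hv3 : v ^ 3 = 8 := by
          linear_combination (v - 2) * hv2
        have h2q : (2 : AlgebraicClosure F) ^ q = 2 := by exact_mod_cast hnat 2
        have h8 : (8 : AlgebraicClosure F) ^ k * 2 = 1 := by
          apply mul_left_cancel₀ h2
          rw [mul_one]
          calc (2 : AlgebraicClosure F) * (8 ^ k * 2) = 2 ^ q := by
                rw [hk, pow_add, pow_mul]; norm_num; ring
            _ = 2 := h2q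
        have hv4 : v ^ 2 = 2 * v := by
          have e : (8 : AlgebraicClosure F) ^ k * v ^ 2 = v := by
            calc (8 : AlgebraicClosure F) ^ k * v ^ 2 = v ^ q := by
                  rw [hk, pow_add, pow_mul, hv3]
              _ = v := hvq
          linear_combination (-v ^ 2) * h8 + 2 * e
        have hv5 : v * (v - 2) = 0 := by linear_combination hv4
        rcases mul_eq_zero.1 hv5 with h0 | h0
        · rw [h0] at hv2
          apply h2
          have : (2 : AlgebraicClosure F) ^ 2 = 0 := by linear_combination hv2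
          exact pow_eq_zero_iff two_ne_zero |>.1 this
        · have h0' : v = 2 := by linear_combination h0
          rw [h0'] at hv2
          have h12 : (2 : AlgebraicClosure F) ^ 2 * 3 = 0 := by linear_combination hv2
          have h30 : (3 : AlgebraicClosure F) = 0 :=
            (mul_eq_zero.1 h12).resolve_left (pow_ne_zero _ h2)
          have := hpq 3 Nat.prime_three (by exact_mod_cast h30)
          omega
    · exact h
  exact ⟨⟨q, hadd, hqz, h4, h5, th, hth, hthq, ii, hii, hiiq⟩, rfl⟩

end Pool.Agent.TH509.J3619
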