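import Mathlib
import Pool.Agent.TH881.RK.Defs
import Pool.Agent.TH881.RK.DefsG
import Pool.Agent.TH111.J3812

/-! The law near density one, Goldbach form. -/

set_option autoImplicit false

namespace Pool.Agent.TH509.J4029

open Finset Filter Topology
open Pool.Agent.TH881
open Pool.Agent.TH881.RG
open Pool.Agent.TH881.RQ
open Pool.Agent.TH881.RK
open Pool.Agent.H373R2.T7
open Pool.Agent.TH111.J3812 (relq_univ udk_le_one AA_pos)

lemma udk_losG_le (pr : Bool) (m : ℕ) (c : ℝ) (h1 : StOneK pr m c) (h3 : StUpG pr m)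
    (d : ℝ) (hd : 0 < d) (hdc : d < c) : ∃ η0 : ℝ, 0 < η0 ∧ ∀ δ κ : ℝ, 0 < δ → 0 < κ →
    δ + κ ≤ η0 → δ + κ < 1 → ∀ A : Set ℕ, 1 - δ ≤ relq pr A →
    udk (losG pr m A) ≤ Real.exp (-Real.exp (((c - d) / (δ + κ)) ^ (1 / (m : ℝ)))) := by
  obtain ⟨η0, hη0, h1⟩ := h1 d hd hdc
  refine ⟨η0, hη0, fun δ κ hδ hκ hle hlt A hA => ?_⟩
  refine h3 δ κ _ hδ.le hκ hlt ⟨0, fun w _ B hB hBc => ?_⟩ A hA
  refine h1 (δ + κ) (by positivity) hle w B hB ?_
  have : (1 - (δ + κ)) = (1 - δ - κ) := by ring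
  rw [this]
  exact hBc

theorem law_oneG (pr : Bool) (m : ℕ) (hm : 1 ≤ m) (c : ℝ) (hc : 0 < c) (h1 : StOneK pr m c)
    (h2 : StOneUpK pr m c) (h3 : StUpG pr m) (h4 : StLowG pr m) :
    Tendsto (fun δ : ℝ => δ * Real.log (Real.log (1 / MDG pr m δ)) ^ m) (𝓝[>] 0) (𝓝 c) := by
  classical
  rw [Metric.tendsto_nhds]
  intro t ht
  obtain ⟨d, hd⟩ : ∃ d : ℝ, d = min (t / 4) (c / 4) := ⟨_, rfl⟩
  have hd0 : 0 < d := by rw [hd]; positivity
  have hda : d ≤ t / 4 := by rw [hd]; exact min_le_left _ _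
  have hdb : d ≤ c / 4 := by rw [hd]; exact min_le_right _ _
  obtain ⟨η1, hη1, h1'⟩ := udk_losG_le pr m c h1 h3 d hd0 (by linarith)
  obtain ⟨η2, hη2, h2'⟩ := h2 d hd0
  have hη3 : 0 < min (min (η1 / 2) η2) (1 / 4) := by positivity
  filter_upwards [Ioo_mem_nhdsGT hη3] with η hη
  obtain ⟨hη0, hηlt⟩ := hη
  have hηle1 : η ≤ η1 / 2 := hηlt.le.trans ((min_le_left _ _).trans (min_le_left _ _))
  have hηle2 : η ≤ η2 := hηlt.le.trans ((min_le_left _ _).trans (min_le_right _ _))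
  have hηq : η ≤ 1 / 4 := hηlt.le.trans (min_le_right _ _)
  have hmr : (0 : ℝ) < m := by exact_mod_cast hm
  have hbdd : BddAbove {x | ∃ A : Set ℕ, 1 - η ≤ relq pr A ∧ x = udk (losG pr m A)} := by
    refine ⟨1, ?_⟩
    rintro x ⟨A, _, rfl⟩
    exact udk_le_one _
  -- upper bound
  have hup : MDG pr m η ≤ Real.exp (-Real.exp (((c - 2 * d) / η) ^ (1 / (m : ℝ)))) := by
    unfold MDG
    apply csSup_le
    · exact ⟨_, Set.univ, by rw [relq_univ]; linarith, rfl⟩
    · rintro x ⟨A, hA, rfl⟩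
      obtain ⟨κ, hκ⟩ : ∃ κ : ℝ, κ = η * (d / c) := ⟨_, rfl⟩
      have hdc : d / c ≤ 1 / 4 := by
        rw [div_le_iff₀ hc]
        linarith
      have hκ0 : 0 < κ := by rw [hκ]; positivity
      have hκle : κ ≤ η := by
        rw [hκ]
        nlinarith
      refine (h1' η κ hη0 hκ0 (by linarith) (by linarith) A hA).trans ?_
      apply Real.exp_le_exp.2
      apply neg_le_neg
      apply Real.exp_le_exp.2
      apply Real.rpow_le_rpow (div_nonneg (by linarith) hη0.le) _ (by positivity)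
      rw [div_le_div_iff₀ hη0 (by positivity)]
      have h5 : η + κ = η * ((c + d) / c) := by
        rw [hκ]
        field_simp
      rw [h5]
      have h6 : (c - 2 * d) * ((c + d) / c) ≤ c - d := by
        rw [mul_div_assoc', div_le_iff₀ hc]
        nlinarith
      calc (c - 2 * d) * (η * ((c + d) / c)) = ((c - 2 * d) * ((c + d) / c)) * η := by ring
        _ ≤ (c - d) * η := mul_le_mul_of_nonneg_right h6 hη0.le
  have hlow : Real.exp (-Real.exp (((c + d) / η) ^ (1 / (m : ℝ)))) ≤ MDG pr m η := by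
    obtain ⟨w, hw, B, hB, hBc, h5⟩ := h2' η hη0 hηle2
    obtain ⟨A, hA1, hA2⟩ := h4 w B hB hw
    refine h5.trans (hA2.trans ?_)
    unfold MDG
    apply le_csSup hbdd
    refine ⟨A, ?_, rfl⟩
    refine le_trans ?_ hA1
    rw [le_div_iff₀ (AA_pos pr w)]
    exact hBc
  have hpos : 0 < MDG pr m η := lt_of_lt_of_le (Real.exp_pos _) hlow
  have hneg : Real.log (1 / MDG pr m η) = -Real.log (MDG pr m η) := by
    rw [one_div, Real.log_inv]
  have hlog1 : Real.log (1 / MDG pr m η) ≤ Real.exp (((c + d) / η) ^ (1 / (m : ℝ))) := by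
    rw [hneg]
    have h3 := Real.log_le_log (Real.exp_pos _) hlow
    rw [Real.log_exp] at h3
    linarith
  have hlog2 : Real.exp (((c - 2 * d) / η) ^ (1 / (m : ℝ))) ≤ Real.log (1 / MDG pr m η) := by
    rw [hneg]
    have h3 := Real.log_le_log hpos hup
    rw [Real.log_exp] at h3
    linarith
  have hlogpos : 0 < Real.log (1 / MDG pr m η) := lt_of_lt_of_le (Real.exp_pos _) hlog2
  have hll1 : Real.log (Real.log (1 / MDG pr m η)) ≤ ((c + d) / η) ^ (1 / (m : ℝ)) := by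
    have h3 := Real.log_le_log hlogpos hlog1
    rwa [Real.log_exp] at h3
  have hll2 : ((c - 2 * d) / η) ^ (1 / (m : ℝ)) ≤ Real.log (Real.log (1 / MDG pr m η)) := by
    have h3 := Real.log_le_log (Real.exp_pos _) hlog2
    rwa [Real.log_exp] at h3
  have hx1 : 0 ≤ (c - 2 * d) / η := div_nonneg (by linarith) hη0.le
  have hx2 : 0 ≤ (c + d) / η := div_nonneg (by linarith) hη0.le
  have hpw : ∀ x : ℝ, 0 ≤ x → (x ^ (1 / (m : ℝ))) ^ m = x := by
    intro x hx
    rw [← Real.rpow_natCast, ← Real.rpow_mul hx, one_div, inv_mul_cancel₀ hmr.ne', Real.rpow_one]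
  have h7 := pow_le_pow_left₀ (Real.rpow_nonneg hx1 _) hll2 m
  have h8 := pow_le_pow_left₀ ((Real.rpow_nonneg hx1 _).trans hll2) hll1 m
  rw [hpw _ hx1, div_le_iff₀ hη0] at h7
  rw [hpw _ hx2, le_div_iff₀ hη0] at h8
  rw [Real.dist_eq, abs_lt]
  constructor
  · linarith
  · linarith

end Pool.Agent.TH509.J4029
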